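import Pool.Agent.H6.NE.Stm3

/-!
# NE part FRM: rank of a family of alternating forms
-/

set_option autoImplicit false

open Finset

namespace H98.NE

open H6.NE

theorem t_FRM (hMI : S_MI) (hSQF : S_SQF) (hLEN : S_LEN) : S_FRM := by
  intro p N _ hN K _ _ _ β hβ E f1 f2 h2 hall T hT hbad
  classical
  have hp : p.Prime := Fact.out
  obtain ⟨-, -, hcard, -⟩ := hLEN p N
  let b : K →ₗ[ZMod (p ^ N)] (K →ₗ[ZMod (p ^ N)] ZMod (p ^ N)) →ₗ[ZMod (p ^ N)]
      (K →ₗ[ZMod (p ^ N)] ZMod (p ^ N)) := (LinearMap.llcomp _ K K (ZMod (p ^ N))).flip ∘ₗ β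
  have hb : ∀ x f y, b x f y = f (β x y) := fun x f y => rfl
  have hcr : ∀ f : K →ₗ[ZMod (p ^ N)] ZMod (p ^ N),
      Nat.card {x : K // ∀ y, f (β x y) = 0} = Nat.card (Sv b f) := by
    intro f
    refine Nat.card_congr (Equiv.subtypeEquivRight fun x => ?_)
    rw [mem_Sv]
    constructor
    · intro h
      ext y
      rw [hb, h y, LinearMap.zero_apply]
    · intro h y
      rw [← hb, h, LinearMap.zero_apply]
  have hpow : ∀ f : K →ₗ[ZMod (p ^ N)] ZMod (p ^ N),
      Nat.card {x : K // ∀ y, f (β x y) = 0} = p ^ ln p (Sv b f) := by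
    intro f
    rw [hcr, hcard]
  have hK : Nat.card K = p ^ ln p K := hcard K
  -- parity
  have hpar : ∀ f : K →ₗ[ZMod (p ^ N)] ZMod (p ^ N), ∃ t, ln p K = 2 * t + ln p (Sv b f) := by
    intro f
    obtain ⟨⟨m, hm⟩, -⟩ := hSQF p N hN K (β.compr₂ f) (fun x => by
      rw [LinearMap.compr₂_apply, hβ, map_zero])
    have e : Nat.card (LinearMap.ker (β.compr₂ f)) = Nat.card (Sv b f) := by
      refine Nat.card_congr (Equiv.subtypeEquivRight fun x => ?_)
      rw [mem_Sv, LinearMap.mem_ker]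
      constructor
      · intro h
        ext y
        exact LinearMap.congr_fun h y
      · intro h
        ext y
        exact LinearMap.congr_fun h y
    rw [e, hcard (Sv b f), hK] at hm
    have hm0 : m ≠ 0 := by
      rintro rfl
      have : 0 < p ^ ln p K := pow_pos hp.pos _
      simp at hm
      omega
    have := congrArg (fun t => t.factorization p) hm
    rw [Nat.factorization_mul (pow_ne_zero _ hm0) (pow_ne_zero _ hp.ne_zero),
      Nat.factorization_pow, hp.factorization_pow, hp.factorization_pow] at this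
    simp at this
    exact ⟨m.factorization p, this.symm⟩
  have hκ : ln p K = 2 * E + ln p (Sv b f2) := by
    rw [hK, hpow, ← pow_add] at h2
    exact Nat.pow_right_injective hp.two_le h2
  have hge : ∀ s ∈ T, ln p (Sv b f2) + 2 ≤ ln p (Sv b (f1 + s • f2)) := by
    intro s hs
    have h1 := hall (f1 + s • f2)
    have h3 := hbad s hs
    rw [hK, hpow, ← pow_add] at h1
    rw [hK, hpow, ← pow_add] at h3
    have h4 : ln p K ≤ 2 * E + ln p (Sv b (f1 + s • f2)) :=
      (Nat.pow_le_pow_iff_right hp.one_lt).1 h1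
    have h5 : ln p K ≠ 2 * E + ln p (Sv b (f1 + s • f2)) := fun h => h3 (by rw [h])
    obtain ⟨t, ht⟩ := hpar (f1 + s • f2)
    omega
  have hmi := hMI p N K _ _ b f1 f2 T hT
  have hsum : T.card * (ln p (Sv b f2) + 2) ≤ ∑ s ∈ T, ln p (Sv b (f1 + s • f2)) := by
    rw [← smul_eq_mul, ← Finset.sum_const]
    exact Finset.sum_le_sum hge
  rw [mul_add] at hsum
  omega

end H98.NE
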