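import Pool.Agent.H6.NE.Stm3

/-!
# NE part SQF: alternating forms on finite `Z/p^N`-modules
-/

set_option autoImplicit false

open Finset

namespace H98.NE

/-- counting the orthogonal of a subgroup by characters -/
theorem card_orth (q : ℕ) [NeZero q] (L : Type) [AddCommGroup L]
    [Module (ZMod q) L] [Finite L] (B : L →ₗ[ZMod q] L →ₗ[ZMod q] ZMod q)
    (L1 : Submodule (ZMod q) L) (hB : ∀ x y, B x y = - B y x)
    (hL : LinearMap.ker B ≤ L1) :
    Nat.card L1 * Nat.card {x : L // ∀ y ∈ L1, B x y = 0} =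
      Nat.card L * Nat.card (LinearMap.ker B) := by
  classical
  let _ : Fintype L := Fintype.ofFinite L
  let ψ : AddChar (ZMod q) ℂ := ZMod.stdAddChar
  have hψ : Function.Injective ψ := ZMod.injective_stdAddChar
  -- characters
  let c1 : L → AddChar L1 ℂ := fun x => ψ.compAddMonoidHom ((B x).toAddMonoidHom.comp L1.subtype.toAddMonoidHom)
  let c2 : L → AddChar L ℂ := fun y => ψ.compAddMonoidHom ((B y).toAddMonoidHom)
  have h1 : ∀ x, (∑ y : L1, ψ (B x y)) = if (∀ y ∈ L1, B x y = 0) then (Fintype.card L1 : ℂ) else 0 := by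
    intro x
    have := AddChar.sum_eq_ite (c1 x)
    have e : (c1 x = 0) ↔ (∀ y ∈ L1, B x y = 0) := by
      constructor
      · intro h y hy
        have h2 := DFunLike.congr_fun h (⟨y, hy⟩ : L1)
        have h3 : ψ (B x y) = 1 := h2
        apply hψ
        rw [h3, AddChar.map_zero_eq_one]
      · intro h
        ext y
        show ψ (B x y) = 1
        rw [h y y.2, AddChar.map_zero_eq_one]
    have e1 : (∑ y : L1, ψ (B x y)) = ∑ y : L1, c1 x y := rfl
    rw [e1, this]
    by_cases h : ∀ y ∈ L1, B x y = 0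
    · rw [if_pos h, if_pos (e.2 h)]
    · rw [if_neg h, if_neg (fun h' => h (e.1 h'))]
  have h2 : ∀ y, (∑ x : L, ψ (B y x)) = if y ∈ LinearMap.ker B then (Fintype.card L : ℂ) else 0 := by
    intro y
    have := AddChar.sum_eq_ite (c2 y)
    have e : (c2 y = 0) ↔ (y ∈ LinearMap.ker B) := by
      constructor
      · intro h
        rw [LinearMap.mem_ker]
        ext x
        have h2 := DFunLike.congr_fun h x
        have h3 : ψ (B y x) = 1 := h2
        apply hψ
        rw [h3, LinearMap.zero_apply, AddChar.map_zero_eq_one]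
      · intro h
        ext x
        show ψ (B y x) = 1
        rw [LinearMap.mem_ker] at h
        rw [h, LinearMap.zero_apply, AddChar.map_zero_eq_one]
    have e1 : (∑ x : L, ψ (B y x)) = ∑ x : L, c2 y x := rfl
    rw [e1, this]
    by_cases h : y ∈ LinearMap.ker B
    · rw [if_pos h, if_pos (e.2 h)]
    · rw [if_neg h, if_neg (fun h' => h (e.1 h'))]
  have hsum : ∑ x : L, ∑ y : L1, ψ (B x y) = ∑ y : L1, ∑ x : L, ψ (B y x) := by
    rw [Finset.sum_comm]
    refine Finset.sum_congr rfl fun y _ => ?_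
    refine Fintype.sum_equiv (Equiv.neg L) _ _ fun x => ?_
    rw [hB x (y : L)]
    simp
  simp only [h1, h2] at hsum
  rw [Finset.sum_ite, Finset.sum_const_zero, add_zero, Finset.sum_const, nsmul_eq_mul,
    Finset.sum_ite, Finset.sum_const_zero, add_zero, Finset.sum_const, nsmul_eq_mul] at hsum
  have e1 : Nat.card {x : L // ∀ y ∈ L1, B x y = 0} =
      (Finset.univ.filter (fun x : L => ∀ y ∈ L1, B x y = 0)).card := by
    rw [Nat.card_eq_fintype_card, Fintype.card_subtype]
  have e2 : Nat.card (LinearMap.ker B) =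
      (Finset.univ.filter (fun y : L1 => (y : L) ∈ LinearMap.ker B)).card := by
    rw [← Fintype.card_subtype, ← Nat.card_eq_fintype_card]
    refine Nat.card_congr ?_
    exact
      { toFun := fun z => ⟨⟨z.1, hL z.2⟩, z.2⟩
        invFun := fun z => ⟨z.1.1, z.2⟩
        left_inv := fun z => rfl
        right_inv := fun z => rfl }
  rw [e1, e2, Nat.card_eq_fintype_card, Nat.card_eq_fintype_card]
  have := hsum
  apply Nat.cast_injective (R := ℂ)
  push_cast
  rw [mul_comm, hsum, mul_comm]

theorem t_SQF : H6.NE.S_SQF := by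
  intro p N _ hN L _ _ _ B hB
  classical
  have : NeZero (p ^ N) := ⟨pow_ne_zero _ (Fact.out : p.Prime).ne_zero⟩
  have hskew : ∀ x y, B x y = - B y x := by
    intro x y
    have h := hB (x + y)
    simp only [map_add, LinearMap.add_apply, hB, zero_add, add_zero] at h
    exact eq_neg_of_add_eq_zero_right h
  have key : ∀ L1 : Submodule (ZMod (p ^ N)) L, LinearMap.ker B ≤ L1 →
    Nat.card L1 * Nat.card {x : L // ∀ y ∈ L1, B x y = 0} =
      Nat.card L * Nat.card (LinearMap.ker B) := fun L1 hL => card_orth _ L B L1 hskew hL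
  refine ⟨?_, key⟩
  -- maximal isotropic submodule
  let P : Set (Submodule (ZMod (p ^ N)) L) :=
    {Y | LinearMap.ker B ≤ Y ∧ ∀ x ∈ Y, ∀ y ∈ Y, B x y = 0}
  have hne : P.Nonempty := by
    refine ⟨LinearMap.ker B, le_rfl, ?_⟩
    intro x hx y _
    rw [LinearMap.mem_ker] at hx
    rw [hx, LinearMap.zero_apply]
  have : Finite (Submodule (ZMod (p ^ N)) L) := inferInstance
  obtain ⟨Y, hY⟩ := (Set.toFinite P).exists_maximal hne
  have hYP : Y ∈ P := hY.prop
  have hmax : ∀ x : L, (∀ y ∈ Y, B x y = 0) → x ∈ Y := by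
    intro x hx
    have hZ : (Y ⊔ Submodule.span _ {x}) ∈ P := by
      refine ⟨hYP.1.trans le_sup_left, ?_⟩
      intro a ha b hb
      obtain ⟨a1, ha1, a2, ha2, rfl⟩ := Submodule.mem_sup.1 ha
      obtain ⟨b1, hb1, b2, hb2, rfl⟩ := Submodule.mem_sup.1 hb
      obtain ⟨s, rfl⟩ := Submodule.mem_span_singleton.1 ha2
      obtain ⟨t, rfl⟩ := Submodule.mem_span_singleton.1 hb2
      have h1 : B a1 x = 0 := by rw [hskew, hx a1 ha1, neg_zero]
      simp [map_add, map_smul, hYP.2 a1 ha1 b1 hb1, hx b1 hb1, h1, hB x]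
    have := hY.le_of_ge hZ le_sup_left
    exact this (Submodule.mem_sup_right (Submodule.mem_span_singleton_self x))
  have hYY : Nat.card {x : L // ∀ y ∈ Y, B x y = 0} = Nat.card Y := by
    refine Nat.card_congr ?_
    exact
      { toFun := fun z => ⟨z.1, hmax z.1 z.2⟩
        invFun := fun z => ⟨z.1, fun y hy => hYP.2 z.1 z.2 y hy⟩
        left_inv := fun z => rfl
        right_inv := fun z => rfl }
  have hk := key Y hYP.1
  rw [hYY] at hk
  have hdvd : Nat.card (LinearMap.ker B) ∣ Nat.card Y := by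
    have h1 := (Submodule.toAddSubgroup (LinearMap.ker B)).card_addSubgroup_dvd_card
    have := AddSubgroup.card_dvd_of_le (H := (LinearMap.ker B).toAddSubgroup) (K := Y.toAddSubgroup)
      (by intro x hx; exact hYP.1 hx)
    exact this
  obtain ⟨m, hm⟩ := hdvd
  refine ⟨m, ?_⟩
  have hpos : 0 < Nat.card (LinearMap.ker B) := Nat.card_pos
  apply Nat.eq_of_mul_eq_mul_right hpos
  rw [← hk, hm]
  ring

end H98.NE
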